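import Pool.Agent.Results.MP_2cf66e_nt.NearEveryPoint
import Pool.Agent.N603.DB.CD

/-!
# The exponentials of algebraic numbers against the periods of the curves whose branch points are the best simultaneous approximations of given numbers

Polynomials with algebraic coefficients in the periods of the algebraic forms on a variety over the algebraic numbers
are periods in the sense of Kontsevich and Zagier. Let `F` be a family with symplectic monodromy over an open subset
`U` of `ℂ ^ X`, for instance the products of the hyperelliptic curves `y² = ∏ (x - e i r)`, whose branch points `e i r`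
are the parameters.

Let `y` be a real point of `U`. We consider the rational points `p / q` with `|q y_j - p_j| ≤ C q^(-τ)` for all `j`;
for `C = 1` and `τ = 1 / |X|` these include all best simultaneous approximations of `y`. Let `Z` be a countable set of
complex numbers, for example the field generated by the numbers `e^γ` for all algebraic numbers `γ`. We show: for all
`y` outside a set of Hausdorff dimension at most `|X| / (1 + τ)`, all `z` in `Z`, all number fields `K` and all `k`:
the members over ALL but finitely many of the points `p / q` have periods which have nothing to do with `z`: if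
`z ≠ 0`, then `z` is not a value at the periods at `p / q` (of a polynomial with coefficients in `K` of height at most
`q ^ k`, degree at most `k`, in another way than on the whole torsor of the period matrices), and if `z` is
transcendental over `ℚ(π)`, then `z` is not a root. For `τ = 1 / |X|` the bound is `|X|² / (|X| + 1) < |X|`, so that
this is the case for almost all real tuples `y`: the curves with branch points at the best approximations of almost
all tuples of branch points. More generally we approximate complex points by points with common denominators over a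
number field `L` (for an imaginary quadratic field `L` almost all complex points have infinitely many approximations
of this quality, too).

The theorem of the starting file `NearEveryPoint` for all points of `K ^ X` of height at most `T` at distance at most
`C T ^ (-τ)` has the exceptional dimension `2 [K : ℚ] (|X| - 1) / τ`, which for `|X| ≥ 3`, `K = ℚ` and the exponent
`τ = 1 + 1 / |X|` of the best approximations is at least `|X|`, so that it says nothing about them; here it is
`|X| / τ`, and the field of the coefficients may be larger than the field of the points.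

The definitions `Value`, `Root` are in the starting file `NearEveryPoint`:
* `SympFam X n` : the families; `F.P i x` the matrices of periods, `F.Q i` and `F.J i` the polarizations;
* `F.torsor x` : the pairs `(Y, μ)`, `μ ≠ 0`, with `Y i * Q i(x) * (Y i)ᵀ = μ ^ w i J i` for all `i`; it contains the
  matrices of the periods and `2 π i`;
* `Y890.HE.Conf n`, `Y890.HE.pm n e` : the branch points `e i r`, `r ≤ n i`, with increasing real parts, and the
  matrices of the periods of `x ^ j dx / y` on `y² = ∏ (x - e i r)`.

Proof. The members over points of height at most `T` which are not generic lie on `O(T^ε)` hypersurfaces of bounded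
degree; for a fixed denominator these contain `O(T^(|X| - 1 + ε))` rational points, hence there are `O(T^(|X| + ε))`
exceptional points with common denominators, and the `y` with infinitely many approximations among them are covered by
few small balls.
-/

set_option autoImplicit false

open NumberField

namespace Pool.Agent.Results.MP_2cf66e_nt.BestApproximations

open Pool.Agent Pool.Agent.Y890.MV Pool.Agent.Y890.SM Pool.Agent.R349.PC
open NearEveryPoint (Value Root)

/-- the coordinates of `s` are `a j / b` with integers `a j`, `b` of `L` all of whose conjugates have absolute value at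
most `T` -/
def CommonDen (L : Type) [Field L] [NumberField L] {X : Type} (T : ℝ) (s : X → L) : Prop :=
  ∃ (b : 𝓞 L) (a : X → 𝓞 L), b ≠ 0 ∧ (∀ φ : L →+* ℂ, ‖φ b‖ ≤ T ∧ ∀ j, ‖φ (a j)‖ ≤ T) ∧
    ∀ j, s j = (a j : L) / (b : L)

/-- the relations between `z` and the periods at `x` are trivial: `z` is not a value, and not a root if it is
transcendental over `ℚ(π)` -/
def Unrelated {X : Type} [Fintype X] [DecidableEq X] {ι : Type} [Fintype ι] [DecidableEq ι] {n : ι → ℕ}
    (F : SympFam X n) (k : ℕ) (K : Type) [Field K] [NumberField K] (io : K →+* ℂ) (T : ℝ) (z : ℂ)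
    (x : X → ℂ) : Prop :=
  (z ≠ 0 → ¬ Value F k K io T z x) ∧
    (Transcendental (IntermediateField.adjoin ℚ {(Real.pi : ℂ)}) z → ¬ Root F k K io T z x)

/-- **Exponentials, periods and best approximations of the branch points.** Let `Z` be a countable set of complex
numbers and `F` a family with symplectic monodromy over an open subset `U` of `ℂ ^ X`.
(1) For every `τ > 0` there is a set `E` in `ℝ ^ X` of Hausdorff dimension at most `|X| / (1 + τ)` such that for all
`y` outside `E` with `y ∈ U`, all number fields `K` in `ℂ`, all `z` in `Z`, all `k`, `C` and all large `q`: for ALL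
integers `p j` with `|q y j - p j| ≤ C q^(-τ)` the point `p / q` is in `U`, and `z` is unrelated to the periods at
`p / q`, for the degree `k`, the field `K` and the bound `q ^ k` for the conjugates of the coefficients.
(2) For every number field `L` with an embedding in `ℂ` and `τ > 0` there is a set `E` in `ℂ ^ X` of Hausdorff
dimension at most `[L : ℚ] |X| / τ` such that for all `ξ` in `U` outside `E`, all number fields `K` in `ℂ` which
contain `L`, all `z` in `Z`, all `k`, `C` and all large `T`: all points `s` with coordinates in `L` with a common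
denominator, of height at most `T`, at distance at most `C T ^ (-τ)` from `ξ` are in `U`, and `z` is unrelated to the
periods at `s`, for the degree `k`, the field `K` and the bound `T ^ k`.
(3) The numbers `e^γ` for algebraic `γ` form a countable set of numbers different from `0`, and there is `γ₀` such that
all of them with `γ ∉ ℚ γ₀` are transcendental over `ℚ(π)`.
(4) The period matrices of all products of hyperelliptic curves `y² = ∏ (x - e i r)`, `r ≤ n i`, `n i` even, are such a
family. -/
theorem result :
    (∀ (Z : Set ℂ), Z.Countable → ∀ (X : Type) [Fintype X] [DecidableEq X] [Nonempty X]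
      (ι : Type) [Fintype ι] [DecidableEq ι] (n : ι → ℕ) (F : SympFam X n),
      (∀ τ : ℝ, 0 < τ → ∃ E : Set (X → ℝ), dimH E ≤ ENNReal.ofReal ((Fintype.card X : ℝ) / (1 + τ)) ∧
        ∀ y : X → ℝ, y ∉ E → (fun j => (y j : ℂ)) ∈ F.U → ∀ (K : IntermediateField ℚ ℂ) [NumberField K], ∀ z ∈ Z,
          ∀ (k : ℕ) (C : ℝ), ∃ Q : ℕ, ∀ q : ℕ, Q ≤ q → ∀ p : X → ℤ,
            (∀ j, |(q : ℝ) * y j - p j| ≤ C * (q : ℝ) ^ (-τ)) →
              (fun j => (p j : ℂ) / q) ∈ F.U ∧
              Unrelated F k K (algebraMap K ℂ) (q : ℝ) z (fun j => (p j : ℂ) / q)) ∧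
      ∀ (L : Type) [Field L] [NumberField L] (io : L →+* ℂ) (τ : ℝ), 0 < τ → ∃ E : Set (X → ℂ),
        dimH E ≤ ENNReal.ofReal ((Module.finrank ℚ L : ℝ) * (Fintype.card X : ℝ) / τ) ∧
        ∀ ξ ∈ F.U, ξ ∉ E → ∀ (K : IntermediateField ℚ ℂ) [NumberField K], (∀ x, io x ∈ K) → ∀ z ∈ Z,
          ∀ (k : ℕ) (C : ℝ), ∃ T₁ : ℝ, ∀ T : ℝ, T₁ ≤ T → ∀ s : X → L,
            CommonDen L T s → (∀ j, ‖ξ j - io (s j)‖ ≤ C * T ^ (-τ)) →
              (fun j => io (s j)) ∈ F.U ∧ Unrelated F k K (algebraMap K ℂ) T z (fun j => io (s j))) ∧
    ({z : ℂ | ∃ γ : ℂ, IsAlgebraic ℚ γ ∧ z = Complex.exp γ}.Countable ∧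
      ∃ γ₀ : ℂ, ∀ γ : ℂ, IsAlgebraic ℚ γ → (∀ q : ℚ, γ ≠ q * γ₀) →
        Transcendental (IntermediateField.adjoin ℚ {(Real.pi : ℂ)}) (Complex.exp γ)) ∧
    ∀ (ι : Type) [Fintype ι] [DecidableEq ι] (n : ι → ℕ), (∀ i, Even (n i)) →
      ∃ F : SympFam (Σ i, Fin (n i + 1)) n, F.U = Y890.HE.Conf n ∧ (∀ i, F.w i = 1) ∧
        ∀ i e, F.P i e = Y890.HE.pm n e i := by
  have hun : ∀ {X : Type} [Fintype X] [DecidableEq X] {ι : Type} [Fintype ι] [DecidableEq ι] {n : ι → ℕ}
      (F : SympFam X n) (k : ℕ) (K : Type) [Field K] [NumberField K] (io : K →+* ℂ) (T : ℝ) (z : ℂ)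
      (x : X → ℂ), Good F k K io T z x → Unrelated F k K io T z x := by
    intro X _ _ ι _ _ n F k K _ _ io T z x hgood
    refine ⟨?_, fun htr => NearEveryPoint.not_root F hgood htr⟩
    rintro hz0 ⟨q, c, h5, h6, h7, h8, h9⟩
    rcases h9 with ⟨Y, hY, h10⟩ | h9
    · exact h10 (hgood.1 q c h6 h7 h8 Y hY)
    · exact hgood.2.1 hz0 q c h5 h6 h7 h9 h8
  refine ⟨fun Z hZ X _ _ _ ι _ _ n F => ⟨fun τ hτ => ?_, fun L _ _ io τ hτ => ?_⟩,
    ⟨NearEveryPoint.countable_exp, NearEveryPoint.line⟩,
    fun _ _ _ n hn => ⟨hyp n hn, rfl, fun _ => rfl, fun _ _ => rfl⟩⟩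
  · obtain ⟨E, hE, h⟩ := N603.DB.near_real F hZ τ hτ
    refine ⟨E, hE, fun y hy hyU K _ z hz k C => ?_⟩
    obtain ⟨Q, hQ⟩ := h y hy hyU K z hz k C
    refine ⟨Q, fun q hq p hp => ?_⟩
    obtain ⟨h1, h2⟩ := hQ q hq p hp
    exact ⟨h1, hun F k K _ _ z _ h2⟩
  · obtain ⟨E, hE, h⟩ := N603.DB.near F L io hZ τ hτ
    refine ⟨E, hE, fun ξ hξ hξE K _ hLK z hz k C => ?_⟩
    obtain ⟨T₁, hT₁⟩ := h ξ hξ hξE K hLK z hz k C
    refine ⟨T₁, fun T hT s hs hd => ?_⟩
    obtain ⟨h1, h2⟩ := hT₁ T hT s hs hd
    exact ⟨h1, hun F k K _ _ z _ h2⟩

end Pool.Agent.Results.MP_2cf66e_nt.BestApproximations
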