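import Pool.Agent.N500.LPi.Random
import Pool.Agent.Results.MP_725b61_nt.NoNewNumbersNearAPoint

/-!
# Linear relations between exponentials of algebraic numbers over the ratios of periods: small balls

Polynomials with algebraic coefficients in the periods of the algebraic forms on a variety over the algebraic numbers are
periods in the sense of Kontsevich and Zagier. Is `e` one of them? Let `F` be a family with symplectic monodromy over an
open subset of `ℂ ^ X` (for instance the products of the hyperelliptic curves), `η > 0` and `k` a number. In each ball of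
radius `T ^ (-η)` we consider the points of height at most `T` over a number field of degree at most `k`. We show that
the points `x` for which the exponentials of at most `k` given distinct algebraic numbers are linearly dependent over the
ratios of the periods at `x` (with homogeneous polynomials of the same weight, of degree at most `k` in each period, the
coefficients of which are integers of `K` with conjugates at most `T ^ k`) lie on a number of hypersurfaces, of a degree,
which do not depend on the algebraic numbers, `T`, the ball and the number field. More generally, this holds for the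
points which are not free of two finite families of complex numbers (`Free`).

The definitions (`Pool.Agent.Y890.SM`, `Pool.Agent.Y890.MV`, `Pool.Agent.Y124`, `Pool.Agent.Y120`, `Pool.Agent.R349.PC`,
`Pool.Agent.Results.MP_725b61_nt.NoNewNumbersNearAPoint`):
* `SympFam X n` : the families; `F.P i x` the matrices of periods, `F.Q i` and `F.J i` the polarizations;
* `F.torsor x` : the pairs `(Y, μ)`, `μ ≠ 0`, with `Y i * Q i(x) * (Y i)ᵀ = μ ^ w i J i` for all `i`; it contains the
  matrices of the periods and `2 π i`;
* `pol io c Y` : the polynomial with coefficients `c l` of degree at most `k` in each entry of the matrices `Y i`;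
* `Bd k T x` : all conjugates of the integer `x` of `K` are at most `T ^ k`;
* `Free F K io k T ζ ρ x` : relations between the periods at `x`, of degree at most `k` in each period, with coefficients
  integers of `K` with conjugates at most `T ^ k`: (rel) the relations with coefficients `ζ a` hold on the whole fibre over
  `2 π i` of the torsor; (ring) for all rings `R` which contain the algebraic numbers, `π` and the `ρ b`, a number `ζ a`
  which is `1 / q` times a polynomial in the periods with coefficients in the span of the `ρ b` is in `R`; (field) for all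
  algebraically closed fields `M` which contain `π` and the `ρ b`, if the `ζ a` are linearly independent over `M`, then
  all relations between them with coefficients polynomials in the periods and the `ρ b` (linear in the `ρ b`) are
  trivial; (hom) the same for all algebraically closed fields `M` which contain the `ρ b`, if the polynomials are
  homogeneous of the same weight;
* `InnerM U k` : the points of norm at most `k` at distance at least `1 / k` from the complement of `U`;
* `Cov D m S` : `S` is covered by at most `m` hypersurfaces of degree at most `D`;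
* `Y890.HE.Conf n`, `Y890.HE.pm n e` : the branch points `e i r`, `r ≤ n i`, with increasing real parts, and the matrices
  of the periods of `x ^ j dx / y` on `y² = ∏ (x - e i r)`.
-/

set_option autoImplicit false

open NumberField

namespace Pool.Agent.Results.MP_2cf66e_nt.ExponentialsInSmallBalls

open Pool.Agent Pool.Agent.Y890.MV Pool.Agent.Y890.SM Pool.Agent.R349.PC
open Pool.Agent.Results.MP_725b61_nt.NoNewNumbersNearAPoint (Free free_of)

variable {X : Type} [Fintype X] [DecidableEq X] {ι : Type} [Fintype ι] [DecidableEq ι] {n : ι → ℕ}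

/-- the points over `K` of height at most `T` in `InnerM F.U k` at distance at most `T ^ (-η)` from `t₀` with a given
property -/
def Points (F : SympFam X n) (k : ℕ) (η : ℝ) (K : Type) [Field K] [NumberField K] (io : K →+* ℂ) (T : ℝ)
    (t₀ : X → ℂ) (p : (X → ℂ) → Prop) : Set (X → ℂ) :=
  {t | ‖t - t₀‖ ≤ T ^ (-η) ∧ ∃ e : X → K, (∀ j, Y120.HtLe K T (e j)) ∧ (t = fun j => io (e j)) ∧
    t ∈ InnerM F.U k ∧ p t}

/-- the numbers `z a` satisfy a linear relation whose coefficients, not all zero, are values at the periods at `x` of
homogeneous polynomials of the same weight `d` (the periods in the `i`-th matrix have the weight `F.w i`), of degree at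
most `k` in each period, the coefficients integers of `K` with conjugates at most `T ^ k` -/
def Dependent (F : SympFam X n) (k : ℕ) (K : Type) [Field K] [NumberField K] (io : K →+* ℂ) (T : ℝ) {A : Type}
    [Fintype A] (z : A → ℂ) (x : X → ℂ) : Prop :=
  ∃ (d : ℕ) (c : A → (Ix n → Fin (k + 1)) → 𝓞 K), (∀ a l, Bd k T (c a l)) ∧
    (∀ a l, c a l ≠ 0 → ∑ y : Ix n, F.w y.1 * (l y : ℕ) = d) ∧
    ∑ a, z a * pol io (c a) (fun i => F.P i x) = 0 ∧ ∃ a, pol io (c a) (fun i => F.P i x) ≠ 0

/-- finitely many numbers at the beginning of a sequence -/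
theorem exists_seq {W : Type} [Fintype W] (g : W → ℂ) :
    ∃ (f : ℕ → ℂ) (idx : W → ℕ), (∀ v, idx v < Fintype.card W) ∧ ∀ v, f (idx v) = g v := by
  classical
  refine ⟨fun j => if h : j < Fintype.card W then g ((Fintype.equivFin W).symm ⟨j, h⟩) else 0,
    fun v => (Fintype.equivFin W v : ℕ), fun v => (Fintype.equivFin W v).2, fun v => ?_⟩
  show (if h : ((Fintype.equivFin W v : Fin _) : ℕ) < Fintype.card W then
    g ((Fintype.equivFin W).symm ⟨_, h⟩) else 0) = g v
  rw [dif_pos (Fintype.equivFin W v).2]
  simp

/-- the theorem of Lindemann and Weierstrass -/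
theorem lw {A : Type} [Fintype A] (α : A → ℂ) (hα : ∀ a, IsAlgebraic ℚ (α a)) (hinj : Function.Injective α) :
    LinearIndependent N500.LPi.Qb fun a => Complex.exp (α a) := by
  rw [Fintype.linearIndependent_iff]
  intro g hg a
  have h1 := H340R2.LW.lindemann_weierstrass Finset.univ α (fun a => (g a : ℂ)) (fun a _ => hα a)
    (fun a _ => mem_algebraicClosure_iff.1 (g a).2) (hinj.injOn) (by
      rw [← hg]
      rfl) a (Finset.mem_univ a)
  exact Subtype.ext h1

/-- (1) Let `F` be a family with symplectic monodromy over an open subset of `ℂ ^ X`, `k` a number and `η > 0`. There are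
`C` and `T₀` such that for all number fields `K` of degree at most `k`, embedded in `ℂ`, all `T ≥ T₀` and `t₀`: for all
families `ζ`, `ρ` of at most `k` complex numbers the points over `K` of height at most `T` in the ball of radius
`T ^ (-η)` around `t₀` which are not free of `ζ` and `ρ` lie on at most `C` hypersurfaces of degree at most `C`; for all
families `α` of at most `k` distinct algebraic numbers (for instance `0, β, 2 β, …, (k - 1) β`, `β ≠ 0`, so that the
exponentials are the powers of `e ^ β`) the points for which the `e ^ (α a)` are linearly dependent over the ratios of the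
periods lie on at most `C` hypersurfaces of degree at most `C`.
(2) The period matrices of all products of hyperelliptic curves `y² = ∏ (x - e i r)`, `r ≤ n i`, `n i` even, are such a
family. -/
theorem result :
    (∀ (X : Type) [Fintype X] [DecidableEq X] [Nonempty X] (ι : Type) [Fintype ι] [DecidableEq ι] (n : ι → ℕ)
      (F : SympFam X n) (k : ℕ) (η : ℝ), 0 < η → ∃ (C : ℕ) (T₀ : ℝ), ∀ (K : Type) [Field K] [NumberField K],
        Module.finrank ℚ K ≤ k → ∀ (io : K →+* ℂ) (T : ℝ), T₀ ≤ T → ∀ t₀ : X → ℂ,
          (∀ (A B : Type) [Fintype A] [Fintype B], Fintype.card A ≤ k → Fintype.card B ≤ k →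
            ∀ (ζ : A → ℂ) (ρ : B → ℂ), Y124.Cov C C
              (Points F k η K io T t₀ fun x => ¬ Free F K io k T ζ ρ x)) ∧
          ∀ (A : Type) [Fintype A], Fintype.card A ≤ k → ∀ α : A → ℂ, (∀ a, IsAlgebraic ℚ (α a)) →
            Function.Injective α → Y124.Cov C C
              (Points F k η K io T t₀ (Dependent F k K io T fun a => Complex.exp (α a)))) ∧
    ∀ (ι : Type) [Fintype ι] [DecidableEq ι] (n : ι → ℕ), (∀ i, Even (n i)) →
      ∃ F : SympFam (Σ i, Fin (n i + 1)) n, F.U = Y890.HE.Conf n ∧ (∀ i, F.w i = 1) ∧
        ∀ i e, F.P i e = Y890.HE.pm n e i := by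
  refine ⟨fun X _ _ _ ι _ _ n F k η hη => ?_,
    fun _ _ _ n hn => ⟨hyp n hn, rfl, fun _ => rfl, fun _ _ => rfl⟩⟩
  rcases Nat.eq_zero_or_pos k with hk | hk
  · refine ⟨0, 0, fun K _ _ hK => ?_⟩
    have h1 : 0 < Module.finrank ℚ K := Module.finrank_pos
    omega
  set kk : ℕ := 2 * k + k * k + k + 1 with hkk
  obtain ⟨D, C, T₀, -, H⟩ := R349.MVB.sympB F kk η hη
  set N : ℕ := Fintype.card (Ix n → Fin (k + 1)) with hN
  have hNk : (0 : ℝ) ≤ ((2 * k + k * k : ℕ) : ℝ) * N := by positivity
  have main : ∀ (K : Type) [Field K] [NumberField K],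
      Module.finrank ℚ K ≤ k → ∀ (io : K →+* ℂ) (T : ℝ), max T₀ (1 + ((2 * k + k * k : ℕ) : ℝ) * N) ≤ T →
        ∀ (t₀ : X → ℂ) (A B : Type) [Fintype A] [Fintype B], Fintype.card A ≤ k → Fintype.card B ≤ k →
          ∀ (ζ : A → ℂ) (ρ : B → ℂ), Y124.Cov (D + C) (D + C)
            (Points F k η K io T t₀ fun x => ¬ Free F K io k T ζ ρ x) := by
    intro K _ _ hK io T hT t₀ A B _ _ hA hB ζ ρ
    have hTa : T₀ ≤ T := (le_max_left _ _).trans hT
    have hTb : 1 + ((2 * k + k * k : ℕ) : ℝ) * N ≤ T := (le_max_right _ _).trans hT
    have hT1 : 1 ≤ T := by linarith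
    obtain ⟨f, idx, hidx, hf⟩ := exists_seq (Sum.elim (Sum.elim ζ ρ) (fun p : A × B => ζ p.1 * ρ p.2))
    have hAB : Fintype.card A * Fintype.card B ≤ k * k := Nat.mul_le_mul hA hB
    have hcard : Fintype.card ((A ⊕ B) ⊕ A × B) ≤ 2 * k + k * k := by
      rw [Fintype.card_sum, Fintype.card_sum, Fintype.card_prod]
      omega
    have hidx' : ∀ v, idx v < kk := fun v => by
      have := hidx v
      omega
    refine (H K (by omega) io (fun a => f (a : ℕ)) T hTa t₀).mono (by omega) (by omega) ?_
    rintro t ⟨h1, e, h2, rfl, h3, h4⟩
    refine ⟨⟨e, ⟨h2, ?_, fun hgen => h4 ?_⟩, rfl⟩, h1⟩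
    · refine ⟨h3.1.trans (by exact_mod_cast (by omega : k ≤ kk)), (Metric.ball_subset_ball ?_).trans h3.2⟩
      exact inv_anti₀ (by exact_mod_cast hk) (by exact_mod_cast (by omega : k ≤ kk))
    · have hb : ∀ m : ℕ, m ≤ 2 * k + k * k → ((m * N : ℕ) : ℝ) ≤ T := by
        intro m hm
        have h5 : ((m * N : ℕ) : ℝ) ≤ ((2 * k + k * k : ℕ) : ℝ) * N := by
          have h6 : m * N ≤ (2 * k + k * k) * N := Nat.mul_le_mul_right _ hm
          exact_mod_cast h6
        linarith
      refine free_of F (by linarith) (innerM_sub F.U hk h3) ?_ ?_ ?_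
      · have h := N500.LPi.relOK_of_generic F hgen (fun a => idx (Sum.inl (Sum.inl a))) (fun v => hidx' _) (k := k)
          (by omega) hT1 (by rw [Fintype.card_prod, ← hN]; exact hb _ (by nlinarith))
        have e1 : (fun v => f (idx (Sum.inl (Sum.inl v)))) = ζ := funext fun v => hf _
        rw [e1] at h
        exact h
      · have h := N500.LPi.relOK_of_generic F hgen (fun a : A ⊕ B => idx (Sum.inl a)) (fun v => hidx' _) (k := k)
          (by omega) hT1 (by rw [Fintype.card_prod, Fintype.card_sum, ← hN]; exact hb _ (by nlinarith))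
        have e1 : (fun v : A ⊕ B => f (idx (Sum.inl v))) = Sum.elim ζ ρ := funext fun v => hf _
        rw [e1] at h
        exact h
      · have h := N500.LPi.relOK_of_generic F hgen (fun p : A × B => idx (Sum.inr p)) (fun v => hidx' _) (k := k)
          (by omega) hT1 (by rw [Fintype.card_prod, Fintype.card_prod, ← hN]; exact hb _ (by nlinarith))
        have e1 : (fun v : A × B => f (idx (Sum.inr v))) = fun p : A × B => ζ p.1 * ρ p.2 := funext fun v => hf _
        rw [e1] at h
        exact h
  refine ⟨D + C, max T₀ (1 + ((2 * k + k * k : ℕ) : ℝ) * N), fun K _ _ hK io T hT t₀ =>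
    ⟨fun A B _ _ hA hB ζ ρ => main K hK io T hT t₀ A B hA hB ζ ρ, fun A _ hA α hα hinj => ?_⟩⟩
  refine (main K hK io T hT t₀ A Unit hA (by rw [Fintype.card_unit]; omega) (fun a => Complex.exp (α a))
    (fun _ => 1)).mono le_rfl le_rfl ?_
  rintro t ⟨h1, e, h2, h3, h4, d, c, h5, h6, h7, a, h8⟩
  refine ⟨h1, e, h2, h3, h4, fun hfree => h8 ?_⟩
  have h9 := hfree.hom N500.LPi.Qb inferInstance (fun _ => N500.LPi.Qb.one_mem) (lw α hα hinj) d (fun a _ => c a)
    (fun a _ => h5 a) (fun a _ => h6 a) (by simpa using h7) a
  simpa using h9

end Pool.Agent.Results.MP_2cf66e_nt.ExponentialsInSmallBalls
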