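import Pool.Agent.N113.LP.Fin
import Pool.Agent.N113.LP.Curves

/-!
# A theorem of Lindemann and Weierstrass over the ratios of the periods of 100% of all affine hyperelliptic curves

The polynomials with algebraic coefficients in the periods of the algebraic forms on curves over the algebraic numbers
are periods in the sense of Kontsevich and Zagier. Is `e` one of them? We order the tuples of affine hyperelliptic curves
`y² = F_j(x)`, `j < N`, with `F_j` in `Λ[x]` of degree at most `n_j + 1`, `Λ = ℤ w_0 + … + ℤ w_q` any finitely generated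
group of complex numbers with `w_0 = 1` (for instance the ring of integers of a number field), by the size `T` of the
coefficients, and let `x` be the point whose coordinates are all the periods of the curves over `2 g_j` loops: those
of `2 g_j` forms of the first and second kind, and, for odd `n_j`, those of the form of the third kind.

Let `α_0, α_1, …` be distinct algebraic numbers and let `β_0, β_1, …` be algebraic numbers (for instance, enumerations of all
algebraic numbers). A polynomial is simple if its total degree is at most `ω` and its coefficients are combinations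
of `β_0, …, β_(ω-1)` with integral coefficients at most `T ^ ω`; here `ω = ω(T)` tends to infinity. The periods of the
first and second kind have the weight `1`, and we give arbitrary weights `κ` to the periods of the third kind, for
instance `0`. For 100% of the tuples:

(1) if `∑ R_i(x) e ^ (α_i) = 0`, `i < ω`, with simple homogeneous polynomials `R_i` of the same weight, then all `R_i(x)` are
`0`. So the exponentials of distinct algebraic numbers are linearly independent over the field generated by
the ratios of the periods of the first and second kind and the periods of the third kind (`κ = 0`), as long as the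
relations are simple;
(2) each `e ^ (α_i)`, `α_i ≠ 0`, is transcendental over this field, as long as the equations are simple;
(3) `e ^ (α_i)`, `α_i ≠ 0`, is not a quotient `R(x) / c` with a simple polynomial `R` and a simple number `c`, if all
the monomials of `R` have odd weight (for instance, if `R` is a linear form in the periods), and it is not such a
quotient for any simple `R` and `c` if it is not a polynomial in `π` with algebraic coefficients;
(4) if `e ^ (α_i)` is transcendental over `ℚ(π)`, then it satisfies no simple algebraic equation over the ring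
generated by the periods unless all the coefficients are `0`.

The input on the periods is the theorem of helper121 (`MP_5d33ca_ag.AffineHyperellipticCurves`): the relations between
the periods of 100% of the tuples hold on the torsor `{(Y, u) : Y_j polDR Y_jᵀ = 2πi polB}`, relative to arbitrary
constants. By scaling, homogeneous relations hold at the points of the torsor `{(Y, u) : Y_j polDR Y_jᵀ = polB}` with
algebraic coordinates, where the theorem of Lindemann and Weierstrass applies, and these points are dense.
-/

set_option autoImplicit false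

open Filter MvPolynomial Pool.Agent.N113.LP Pool.Agent.N113.LP.Curves

namespace Pool.Agent.Results.MP_2cf66e_nt.LindemannWeierstrassRatios

theorem result {N : ℕ} (hN : 1 ≤ N) (n : Fin N → ℕ) (q : ℕ) (w : Fin (q + 1) → ℂ) (hw : w 0 = 1) :
    ∃ ω : ℕ → ℕ, Tendsto ω atTop atTop ∧ ∀ ε : ℝ, 0 < ε → ∃ T₀ : ℕ, ∀ T : ℕ, T₀ ≤ T →
      ∀ α β : ℕ → ℂ, (∀ i, IsAlgebraic ℚ (α i)) → Function.Injective α → (∀ i, IsAlgebraic ℚ (β i)) →
      ∃ E ⊆ Box n q T, (E.card : ℝ) ≤ ε * (Box n q T).card ∧ ∀ b ∈ Box n q T, b ∉ E →
        ∃ e : ∀ j, Fin (n j + 1) → ℂ, (∀ j, Branch (pol n w b j) (e j)) ∧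
        ∀ κ : (Σ j, Fin (n j % 2) × Fin (dim (n j))) → ℕ,
          (∀ (d : ℕ) (R : ℕ → MvPolynomial (Ind n) ℂ),
            (∀ i, Simple β (ω T) ((T : ℝ) ^ ω T) (R i) ∧ (R i).IsWeightedHomogeneous (wt κ) d) →
            ∑ i ∈ Finset.range (ω T), eval (allPeriods (pol n w b) e) (R i) * Complex.exp (α i) = 0 →
            ∀ i < ω T, eval (allPeriods (pol n w b) e) (R i) = 0) ∧
          (∀ i < ω T, α i ≠ 0 → ∀ (d : ℕ) (A : ℕ → MvPolynomial (Ind n) ℂ),
            (∀ l, Simple β (ω T) ((T : ℝ) ^ ω T) (A l) ∧ (A l).IsWeightedHomogeneous (wt κ) d) →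
            ∑ l ∈ Finset.range (ω T), eval (allPeriods (pol n w b) e) (A l) * Complex.exp (α i) ^ l = 0 →
            ∀ l < ω T, eval (allPeriods (pol n w b) e) (A l) = 0) ∧
          (∀ i < ω T, α i ≠ 0 → ∀ (c : ℂ) (R : MvPolynomial (Ind n) ℂ),
            Combination β (ω T) ((T : ℝ) ^ ω T) c → c ≠ 0 → Simple β (ω T) ((T : ℝ) ^ ω T) R →
            c * Complex.exp (α i) = eval (allPeriods (pol n w b) e) R →
            (∃ s, R.coeff s ≠ 0 ∧ Even (Finsupp.weight (wt κ) s)) ∧
            Complex.exp (α i) ∈ Algebra.adjoin (algebraicClosure ℚ ℂ) {(Real.pi : ℂ)}) ∧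
          (∀ i < ω T, Transcendental (IntermediateField.adjoin ℚ {(Real.pi : ℂ)}) (Complex.exp (α i)) →
            ∀ A : ℕ → MvPolynomial (Ind n) ℂ, (∀ l, Simple β (ω T) ((T : ℝ) ^ ω T) (A l)) →
            ∑ l ∈ Finset.range (ω T), eval (allPeriods (pol n w b) e) (A l) * Complex.exp (α i) ^ l = 0 →
            ∀ l < ω T, eval (allPeriods (pol n w b) e) (A l) = 0) := by
  obtain ⟨m, hm, H⟩ := good hN n q w hw
  refine ⟨m, hm, fun ε hε => ?_⟩
  obtain ⟨T₀, hT₀⟩ := H ε hε
  refine ⟨T₀, fun T hT α β hα hinj hβ => ?_⟩
  obtain ⟨E, hE1, hE2, hE3⟩ := hT₀ T hT (fun i => Complex.exp (α i)) β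
  refine ⟨E, hE1, hE2, fun b hb hbE => ?_⟩
  obtain ⟨e, he, hx, hg⟩ := hE3 b hb hbE
  have hH : (0 : ℝ) ≤ (T : ℝ) ^ m T := by positivity
  refine ⟨e, he, fun κ => ⟨?_, ?_, ?_, ?_⟩⟩
  · intro d R hR h0 i hi
    refine hg.hom_lin (G_hom n κ) (G_over n) (B_over n) tpi_ne hx hH hβ ?_ d R hR h0 i hi
    intro c hc h1 j
    exact Pool.Agent.H340R2.LW.lindemann_weierstrass Finset.univ (fun i : Fin (m T) => α i) c
      (fun i _ => hα i) (fun i _ => mem_Qb.1 (hc i)) (fun i _ j _ h => Fin.ext (hinj h)) h1 j
      (Finset.mem_univ j)
  · intro i hi hi0 d A hA h0 l hl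
    exact hg.hom_one (G_hom n κ) (G_over n) (B_over n) tpi_ne hx hH hβ hi
      (Pool.Agent.H340R2.LW.transcendental_cexp (α i) (hα i) hi0) d A hA h0 l hl
  · intro i hi hi0 c R hc hc0 hR h0
    obtain ⟨h1, h2⟩ := hg.value (G_hom n κ) (G_over n) (B_over n) hx hH hβ hi hc hc0 hR h0
    exact ⟨h2 (Complex.exp_ne_zero _), h1⟩
  · intro i hi htr A hA h0 l hl
    exact hg.gen_one (G_over n) (B_over n) hx hH hβ hi (not_mem_of_transcendental htr) A hA h0 l hl

end Pool.Agent.Results.MP_2cf66e_nt.LindemannWeierstrassRatios
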