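import Pool.Agent.Results.MP_2cf66e_nt.NearEveryPoint
import Pool.Agent.N603.DB.Per
import Pool.Agent.N156.HG.Main

/-!
# The exponentials of algebraic numbers against the periods of the curves of a family, and denominators of good approximations

Polynomials with algebraic coefficients in the periods of the algebraic forms on a variety over the algebraic numbers
are periods in the sense of Kontsevich and Zagier. Let `F` be a family with symplectic monodromy over an open subset
`U` of the line, for instance the products of the Legendre curve with parameter `x` and other curves whose periods at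
`x` are hypergeometric functions.

Let `α_1, …, α_m` be real numbers. We consider the natural numbers `q` with `‖q α_j - β_j‖ ≤ C q^(-τ)` for all `j`,
`‖x‖` the distance to the nearest integer; for `β = 0`, `C = 1`, `τ = 1 / m` these include the denominators of all
best simultaneous approximations (the denominators of the convergents for `m = 1`). They form a very sparse sequence,
with gaps growing exponentially for almost all `α` if `τ = 1 / m`. Let `G` be a function with steps bounded below by a
positive constant and growth at most `v^e`, for example `a v^e`, and let `Z` be a countable set of complex numbers, for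
example the field generated by the numbers `e^γ` for all algebraic numbers `γ`. We show: for all
`α` in `ℝ^m` outside a set of Hausdorff dimension at most `(m + κ) / (1 + τ)`, for all number fields `K` in `ℂ`, all
`k` and all `z` in `Z`: for all but finitely many of these `q`, EVERY member of the family over a point `x` of `K` in
`InnerM F.U k` with a height within `q^κ` of `G q` has periods which have nothing to do with `z`: if `z ≠ 0`, then `z`
is not a value at the periods at `x` (of a polynomial with coefficients of height at most `T ^ k`, `T` the height of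
`x`, degree at most `k`, in another way than on the whole torsor of the period matrices), and if `z` is transcendental
over `ℚ(π)`, then `z` is not a root. By the theorem of Lindemann and Weierstrass this is the case for all numbers
`e^γ`, `γ` algebraic, apart from at most one line `γ ∈ ℚ γ₀`. For `τ = 1 / m` and `κ < 1` the bound
is less than `m`, so that the statement holds for almost all `α`.

The definitions `Value`, `Root` are in the starting file `NearEveryPoint`:
* `SympFam X n` : the families; `F.P i x` the matrices of periods, `F.Q i` and `F.J i` the polarizations;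
* `F.torsor x` : the pairs `(Y, μ)`, `μ ≠ 0`, with `Y i * Q i(x) * (Y i)ᵀ = μ ^ w i J i` for all `i`; it contains the
  matrices of the periods and `2 π i`;
* `InnerM U k` : the points of norm at most `k` at distance at least `1 / k` from the complement of `U`.

Proof. The elements of height at most `T` in the compact set which are bad at their own height are `O(T^ε)` in number
for every `ε > 0` (`RandomPoints`); the `q` for which a bad element has a height near `G q` form a set with
`O(X^(κ + ε))` elements up to `X`, and the `α` with infinitely many approximations with denominators in such a set are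
covered by few small cubes (`Pool.Agent.N671.DA`). There are only countably many number fields in `ℂ`.
-/

set_option autoImplicit false

open NumberField

namespace Pool.Agent.Results.MP_2cf66e_nt.SimultaneousApproximations

open Pool.Agent Pool.Agent.Y890.MV Pool.Agent.Y890.SM Pool.Agent.R349.PC
open Pool.Agent.N671.DA (Solves Expanding expanding_pow)
open NearEveryPoint (Value Root)

/-- The height of `x`: the least `T` such that `x` is a quotient of two integers of `K` all of whose conjugates have
absolute value at most `T`. -/
noncomputable def height (K : Type) [Field K] [NumberField K] (x : K) : ℝ := sInf {T : ℝ | Y120.HtLe K T x}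

/-- **Exponentials, periods and denominators of good approximations.**
(1) Let `Z` be a countable set of complex numbers, `F` a family with symplectic monodromy with one parameter, let `G`
have steps `≥ a > 0` and growth at most `v^e`, `0 ≤ κ ≤ 1`, `β` in `ℝ^m` and `τ > 0`. There is a set `E` in `ℝ^m` of
Hausdorff dimension at most `(m + κ) / (1 + τ)` such that for all `α` outside `E`, all number fields `K` in `ℂ`, all
`k ≥ [K : ℚ]`, all `z` in `Z`, all `C` and all large `q` with
`‖q α_j - β_j‖ ≤ C q^(-τ)` for all `j`: for EVERY `x` in `K` with `|height x - G q| ≤ q^κ` in `InnerM F.U k`: `z` is not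
a value if `z ≠ 0`, and not a root if `z` is transcendental over `ℚ(π)`, for the degree `k` and the bound
`(height x) ^ k` for the coefficients.
(2) The numbers `e^γ` for algebraic `γ` form a countable set of numbers different from `0`, and there is `γ₀` such that
all of them with `γ ∉ ℚ γ₀` are transcendental over `ℚ(π)`.
(3) For every finite set `A` of rational numbers `0 < μ ≤ 1/2` the matrices
`(W (x), W'(x); W (1 - x), -W'(1 - x))`, `W (x) = ∫ t^(-μ) (1 - t)^(μ - 1) (1 - x t)^(-μ) dt` over `[0, 1]`, for all
`μ ∈ A` are such a family over the plane without `(-∞, 0]` and `[1, ∞)`; the torsor at `x` consists of all `(Y, ν)`,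
`ν ≠ 0`, with `- 2 i sin (π μ) x (1 - x) det (Y μ) = ν` for all `μ`.
The infimum in the definition of the height is a minimum, and the functions `a v^e` with `a > 0`, `e ≥ 1` are examples
of `G`. -/
theorem result :
    (∀ (Z : Set ℂ), Z.Countable → ∀ (X : Type) [Fintype X] [DecidableEq X] [Nonempty X], Fintype.card X = 1 →
      ∀ (ι : Type) [Fintype ι] [DecidableEq ι] (n : ι → ℕ) (F : SympFam X n)
      (G : ℕ → ℝ) (e : ℝ), Expanding G e → ∀ κ : ℝ, 0 ≤ κ → κ ≤ 1 →
      ∀ (m : ℕ) (β : Fin m → ℝ) (τ : ℝ), 0 < τ →
      ∃ E : Set (Fin m → ℝ), dimH E ≤ ENNReal.ofReal ((m + κ) / (1 + τ)) ∧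
        ∀ α, α ∉ E → ∀ (K : IntermediateField ℚ ℂ) [NumberField K] (k : ℕ), Module.finrank ℚ K ≤ k →
          ∀ z ∈ Z, ∀ C : ℝ, ∃ Q : ℕ, ∀ q : ℕ, Q ≤ q →
            Solves α β q (C * (q : ℝ) ^ (-τ)) → ∀ x : K, (fun _ : X => (x : ℂ)) ∈ InnerM F.U k →
              |height K x - G q| ≤ (q : ℝ) ^ κ →
                (z ≠ 0 → ¬ Value F k K (algebraMap K ℂ) (height K x) z (fun _ => (x : ℂ))) ∧
                (Transcendental (IntermediateField.adjoin ℚ {(Real.pi : ℂ)}) z →
                  ¬ Root F k K (algebraMap K ℂ) (height K x) z (fun _ => (x : ℂ)))) ∧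
    ({z : ℂ | ∃ γ : ℂ, IsAlgebraic ℚ γ ∧ z = Complex.exp γ}.Countable ∧
      ∃ γ₀ : ℂ, ∀ γ : ℂ, IsAlgebraic ℚ γ → (∀ q : ℚ, γ ≠ q * γ₀) →
        Transcendental (IntermediateField.adjoin ℚ {(Real.pi : ℂ)}) (Complex.exp γ)) ∧
    (∀ A : Finset ℚ, (∀ μ ∈ A, 0 < μ ∧ μ ≤ 1 / 2) →
      ∃ F : SympFam (Fin 1) (fun _ : Fin 1 × A => 2),
        F.U = {x | x 0 ∈ Complex.slitPlane ∧ 1 - x 0 ∈ Complex.slitPlane} ∧
        (∀ q x, F.P q x = N156.HG.PH ((q.2.1 : ℚ) : ℝ) (x 0)) ∧
        ∀ x p, p ∈ F.torsor x ↔ p.2 ≠ 0 ∧ ∀ q, -(2 * Complex.I) *
          ((Real.sin (Real.pi * (q.2.1 : ℚ)) : ℝ) : ℂ) * (x 0 * (1 - x 0)) * (p.1 q).det = p.2) ∧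
    (∀ (K : Type) [Field K] [NumberField K] (x : K) (T : ℝ), height K x ≤ T ↔ Y120.HtLe K T x) ∧
    ∀ a e : ℝ, 0 < a → 1 ≤ e → Expanding (fun v => a * (v : ℝ) ^ e) e := by
  refine ⟨fun Z hZ X _ _ _ hX ι _ _ n F G e hG κ hκ hκ1 m β τ hτ => ?_,
    ⟨NearEveryPoint.countable_exp, NearEveryPoint.line⟩, fun A hA => ?_,
    fun K _ _ x T => N603.DB.height_le_iff K x T, fun a e ha he => expanding_pow ha he⟩
  · obtain ⟨E, hE, h⟩ := N603.DB.all F hX hZ hG hκ hκ1 β hτ
    refine ⟨E, hE, fun α hα K _ k hk z hz C => ?_⟩
    obtain ⟨Q, hQ⟩ := h α hα K k hk z hz C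
    refine ⟨Q, fun q hq hs x hx hG' => ?_⟩
    have hgood := hQ q hq hs x hx hG'
    refine ⟨?_, fun htr => NearEveryPoint.not_root F hgood htr⟩
    rintro hz0 ⟨q, c, h5, h6, h7, h8, h9⟩
    rcases h9 with ⟨Y, hY, h10⟩ | h9
    · exact h10 (hgood.1 q c h6 h7 h8 Y hY)
    · exact hgood.2.1 hz0 q c h5 h6 h7 h9 h8
  · have h1 : ∀ i : Fin 1, i = 0 := fun i => Subsingleton.elim i 0
    refine ⟨N156.HG.famH 0 A hA, ?_, ?_, ?_⟩
    · ext x
      refine N156.HG.mem_UU.trans ?_
      constructor
      · intro h
        exact h 0
      · intro h i
        rw [h1 i]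
        exact h
    · intro q x
      show N156.HG.PH _ (x q.1) = _
      rw [h1 q.1]
    · intro x p
      rw [← N156.HG.torH_eq hA x]
      unfold N156.HG.torH
      rw [Set.mem_ofPred_eq]
      refine and_congr_right fun _ => forall_congr' fun q => ?_
      rw [h1 q.1]

end Pool.Agent.Results.MP_2cf66e_nt.SimultaneousApproximations
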